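import Pool.Agent.Helper99.EXC.GoalsK

/-!
# EXC: integrability of the integrands of the potential kernel (packet INT)
-/

set_option autoImplicit false

open Finset MeasureTheory

namespace Pool.Agent.Helper69.EXC

open Pool.Agent.Helper99.EXC

lemma one_sub_cos_le_abs (u : ℝ) : 1 - Real.cos u ≤ |u| := by
  rcases le_total |u| 2 with h | h
  · have h1 := Real.one_sub_sq_div_two_le_cos (x := u)
    have h2 : u ^ 2 = |u| ^ 2 := (sq_abs u).symm
    have h3 := abs_nonneg u
    nlinarith
  · have h1 := Real.neg_one_le_cos u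
    linarith

theorem INT (hRHO : RHO_stmt) : INT_stmt := by
  intro a ha0 ha1
  obtain ⟨hdc, hrc, _, _, hd0, hr0, hr1, _, _, c, C, hc, hC, hb⟩ := hRHO a ha0 ha1
  refine ⟨?_, ?_, ?_, ?_⟩
  · intro x n
    have hmeas : Measurable (fun θ : ℝ => (1 - rho a θ ^ n * Real.cos (x * θ)) / dd a θ) := by
      refine Measurable.div ?_ hdc.measurable
      have : Continuous (fun θ : ℝ => 1 - rho a θ ^ n * Real.cos (x * θ)) := by fun_prop
      exact this.measurable
    have hbd : ∀ θ : ℝ, |θ| ≤ Real.pi →
        ‖(1 - rho a θ ^ n * Real.cos (x * θ)) / dd a θ‖ ≤ (n * C + |(x : ℝ)|) / c := by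
      intro θ hθ
      obtain ⟨h1, h2, h3, _, _⟩ := hb θ hθ
      by_cases hz : θ = 0
      · subst hz
        have : dd a 0 = 0 := le_antisymm (by simpa using h2) (hd0 0)
        rw [this, div_zero, norm_zero]
        positivity
      · have hpos : 0 < |θ| := abs_pos.mpr hz
        have hD : 0 < dd a θ := lt_of_lt_of_le (by positivity) h1
        have hpn0 : 0 ≤ rho a θ ^ n := pow_nonneg (hr0 θ).le n
        have hpn1 : rho a θ ^ n ≤ 1 := pow_le_one₀ (hr0 θ).le (hr1 θ)
        have hbern : 1 - rho a θ ^ n ≤ n * (1 - rho a θ) := by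
          have := one_add_mul_le_pow (a := rho a θ - 1) (by linarith [hr0 θ]) n
          have e : 1 + (rho a θ - 1) = rho a θ := by ring
          rw [e] at this
          linarith
        have hcos := one_sub_cos_le_abs (x * θ)
        have hcos1 := Real.cos_le_one (x * θ)
        rw [abs_mul] at hcos
        have hnum0 : 0 ≤ 1 - rho a θ ^ n * Real.cos (x * θ) := by nlinarith
        have hn0 : (0 : ℝ) ≤ n := Nat.cast_nonneg n
        have hnum : 1 - rho a θ ^ n * Real.cos (x * θ) ≤ (n * C + |(x : ℝ)|) * |θ| := by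
          have e1 : 1 - rho a θ ^ n * Real.cos (x * θ) =
              (1 - rho a θ ^ n) + rho a θ ^ n * (1 - Real.cos (x * θ)) := by ring
          rw [e1]
          have e2 : rho a θ ^ n * (1 - Real.cos (x * θ)) ≤ 1 * (|(x : ℝ)| * |θ|) :=
            mul_le_mul hpn1 hcos (by linarith) (by norm_num)
          have e3 : (n : ℝ) * (1 - rho a θ) ≤ n * (C * |θ|) := mul_le_mul_of_nonneg_left h3 hn0
          nlinarith
        rw [Real.norm_eq_abs, abs_div, abs_of_nonneg hnum0, abs_of_pos hD, div_le_div_iff₀ hD hc]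
        have hK : 0 ≤ n * C + |(x : ℝ)| := by positivity
        calc (1 - rho a θ ^ n * Real.cos (x * θ)) * c ≤ ((n * C + |(x : ℝ)|) * |θ|) * c :=
              mul_le_mul_of_nonneg_right hnum hc.le
          _ = (n * C + |(x : ℝ)|) * (c * |θ|) := by ring
          _ ≤ (n * C + |(x : ℝ)|) * dd a θ := mul_le_mul_of_nonneg_left h1 hK
    rw [intervalIntegrable_iff]
    refine MeasureTheory.Measure.integrableOn_of_bounded (M := (n * C + |(x : ℝ)|) / c) ?_
      hmeas.aestronglyMeasurable ?_
    · rw [Set.uIoc, Real.volume_Ioc]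
      exact ENNReal.ofReal_ne_top
    · refine (ae_restrict_iff' measurableSet_uIoc).mpr (Filter.Eventually.of_forall (fun θ hθ => ?_))
      refine hbd θ ?_
      have hp := Real.pi_pos
      rw [Set.uIoc_of_le (by linarith)] at hθ
      exact abs_le.mpr ⟨hθ.1.le, hθ.2⟩
  · unfold pot
    simp
  · intro x y
    unfold pot
    congr 2
    funext θ
    push_cast
    rw [neg_mul, Real.cos_neg]
  · intro x y
    unfold pot
    rw [Int.natAbs_neg]

end Pool.Agent.Helper69.EXC
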